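import Pool.Agent.N520.AN.Stm2

/-!
Project AN2, subtask FAM: two plates are equal or transversal.
-/

set_option autoImplicit false

open Set Filter Topology
open Pool.Agent.N520.AN

namespace Pool.Agent.N2.AN2

theorem t_fam : Pool.Agent.N520.AN.S2_FAM := by
  intro E _ _ _ q Λ hΛ k hk l hl
  obtain ⟨_, g, hg, hgF, hgr⟩ := hk
  obtain ⟨_, h, hh, hhF, hhr⟩ := hl
  rcases hΛ.anti g h hg hh hgF hhF with hE | hE
  · left
    ext x
    rw [hgr, hhr, hE]
  · right
    intro e
    have hdim := Submodule.finrank_sup_add_finrank_inf_eq (att g) (big h)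
    rw [hE, finrank_bot, add_zero, hgF.1] at hdim
    have htop : att g ⊔ big h = ⊤ := by
      apply Submodule.eq_top_of_finrank_eq
      rw [hdim]
      have := hhF.2
      omega
    have he : e ∈ att g ⊔ big h := htop ▸ Submodule.mem_top
    obtain ⟨a, ha, b, hb, hab⟩ := Submodule.mem_sup.1 he
    obtain ⟨f, hf⟩ := (hgr a).2 (att_le_big g ha)
    obtain ⟨f', hf'⟩ := (hhr (-b)).2 ((big h).neg_mem hb)
    refine ⟨f, f', ?_⟩
    rw [hf, hf', sub_neg_eq_add, hab]

end Pool.Agent.N2.AN2
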